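import Mathlib

/-!
# Triangle-free regular graphs with two vertices at distance at least four (helper59, TT876)

`four_d`: `d`-regular, triangle-free, `4 ≤ dist x y`: `4 d ≤ n`, and `n = 4 d` implies bipartite.
-/

set_option autoImplicit false

open Finset

namespace Pool.Agent.UPS.Top

variable {V : Type*} [Fintype V] [DecidableEq V] {G : SimpleGraph V} [DecidableRel G.Adj]

/-- An independent set of a regular graph contains at most half of the vertices, and if it
contains exactly half of them then the graph is bipartite. -/
theorem indep_half {d : ℕ} (hd1 : 1 ≤ d) (hd : ∀ v, G.degree v = d) (N : Finset V)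
    (hN : ∀ u ∈ N, ∀ v ∈ N, ¬ G.Adj u v) :
    2 * N.card ≤ Fintype.card V ∧
      (2 * N.card = Fintype.card V → ∀ u v, G.Adj u v → (u ∈ N ↔ v ∉ N)) := by
  have hsum : ∑ m ∈ Nᶜ, (G.neighborFinset m ∩ N).card = N.card * d := by
    have h1 : ∀ m, (G.neighborFinset m ∩ N).card = ∑ v ∈ N, if G.Adj v m then 1 else 0 := by
      intro m
      rw [sum_boole, Nat.cast_id]
      congr 1
      ext v
      simp [and_comm, G.adj_comm m v]
    have h2 : ∑ m, (G.neighborFinset m ∩ N).card = N.card * d := by
      simp_rw [h1]
      rw [sum_comm]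
      have h3 : ∀ v ∈ N, (∑ m, if G.Adj v m then 1 else 0) = d := by
        intro v _
        rw [sum_boole, Nat.cast_id, ← hd v, ← SimpleGraph.card_neighborFinset_eq_degree]
        congr 1
        ext m
        simp
      rw [sum_congr rfl h3, sum_const, smul_eq_mul]
    have h4 : ∑ m ∈ N, (G.neighborFinset m ∩ N).card = 0 := by
      apply sum_eq_zero
      intro m hm
      rw [card_eq_zero, eq_empty_iff_forall_notMem]
      intro v hv
      rw [mem_inter, SimpleGraph.mem_neighborFinset] at hv
      exact hN m hm v hv.2 hv.1
    have h5 := sum_add_sum_compl N fun m => (G.neighborFinset m ∩ N).card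
    omega
  have hle : ∀ m ∈ Nᶜ, (G.neighborFinset m ∩ N).card ≤ d := by
    intro m _
    rw [← hd m, ← SimpleGraph.card_neighborFinset_eq_degree]
    exact card_le_card inter_subset_left
  have hc : (Nᶜ).card + N.card = Fintype.card V := by
    rw [card_compl]
    have := card_le_univ N
    omega
  have h6 : N.card * d ≤ (Nᶜ).card * d := by
    rw [← hsum, ← smul_eq_mul (Nᶜ).card d, ← sum_const]
    exact sum_le_sum hle
  have h7 : N.card ≤ (Nᶜ).card := Nat.le_of_mul_le_mul_right h6 (by omega)
  refine ⟨by omega, fun heq u v huv => ?_⟩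
  have h8 : ∑ m ∈ Nᶜ, (G.neighborFinset m ∩ N).card = ∑ m ∈ Nᶜ, d := by
    rw [hsum, sum_const, smul_eq_mul]
    congr 1
    omega
  have h9 := (sum_eq_sum_iff_of_le hle).1 h8
  constructor
  · intro hu hv
    exact hN u hu v hv huv
  · intro hv
    by_contra hu
    have h10 := h9 v (by simpa using hv)
    have h11 : G.neighborFinset v ∩ N = G.neighborFinset v := by
      apply eq_of_subset_of_card_le inter_subset_left
      rw [h10, SimpleGraph.card_neighborFinset_eq_degree, hd]
    have h12 : u ∈ G.neighborFinset v ∩ N := by
      rw [h11]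
      simpa using huv.symm
    exact hu (mem_inter.1 h12).2

/-- **Four d**: a `d`-regular triangle-free graph with two vertices at distance at least four has
at least `4 d` vertices, and it is bipartite if it has exactly `4 d` vertices. -/
theorem four_d {d : ℕ} (hd1 : 1 ≤ d) (hd : ∀ v, G.degree v = d)
    (htf : ∀ a b c, G.Adj a b → G.Adj b c → ¬ G.Adj a c) {x y : V} (hxy : 4 ≤ G.dist x y) :
    4 * d ≤ Fintype.card V ∧
      (Fintype.card V = 4 * d → ∃ side : V → Bool, ∀ u v, G.Adj u v → side u ≠ side v) := by
  have hshort : ∀ (p : G.Walk x y), 4 ≤ p.length := fun p => hxy.trans (SimpleGraph.dist_le p)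
  have hdisj : Disjoint (G.neighborFinset x) (G.neighborFinset y) := by
    rw [Finset.disjoint_left]
    intro a hax hay
    rw [SimpleGraph.mem_neighborFinset] at hax hay
    have := hshort (.cons hax (.cons hay.symm .nil))
    simp at this
  have hind : ∀ u ∈ G.neighborFinset x ∪ G.neighborFinset y,
      ∀ v ∈ G.neighborFinset x ∪ G.neighborFinset y, ¬ G.Adj u v := by
    intro u hu v hv huv
    rw [mem_union, SimpleGraph.mem_neighborFinset, SimpleGraph.mem_neighborFinset] at hu hv
    rcases hu with hu | hu <;> rcases hv with hv | hv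
    · exact htf x u v hu huv hv
    · have := hshort (.cons hu (.cons huv (.cons hv.symm .nil)))
      simp at this
    · have := hshort (.cons hv (.cons huv.symm (.cons hu.symm .nil)))
      simp at this
    · exact htf y u v hu huv hv
  have hcard : (G.neighborFinset x ∪ G.neighborFinset y).card = 2 * d := by
    rw [card_union_of_disjoint hdisj, SimpleGraph.card_neighborFinset_eq_degree,
      SimpleGraph.card_neighborFinset_eq_degree, hd, hd]
    omega
  obtain ⟨h1, h2⟩ := indep_half hd1 hd _ hind
  rw [hcard] at h1 h2
  refine ⟨by omega, fun hn => ?_⟩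
  refine ⟨fun v => decide (v ∈ G.neighborFinset x ∪ G.neighborFinset y), fun u v huv => ?_⟩
  have h3 := h2 (by omega) u v huv
  intro h4
  have h5 : (u ∈ G.neighborFinset x ∪ G.neighborFinset y ↔
      v ∈ G.neighborFinset x ∪ G.neighborFinset y) := decide_eq_decide.1 h4
  tauto

end Pool.Agent.UPS.Top
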