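import Pool.Agent.Lib.MP_876e19_co_arc3.Cubic
import Pool.Agent.Lib.MP_876e19_co_ups.SharpSets

/-!
# Uniform path systems: the top file (helper59, TT876)

`top`: the frozen statement follows from the case of valency at least four and diameter at least
four, number of vertices not a prime power.
-/

set_option autoImplicit false

open Finset

namespace Pool.Agent.UPS.Top

open Pool.Agent.UPS

/-- connected graphs of valency at most one are complete -/
theorem small_complete {V : Type*} [Fintype V] [DecidableEq V] {G : SimpleGraph V}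
    [DecidableRel G.Adj] (hG : G.Connected) (hd : ∀ v, G.degree v ≤ 1) :
    ∀ u w, u ≠ w → G.Adj u w := by
  have key : ∀ (u w : V) (p : G.Walk u w), w = u ∨ G.Adj u w := by
    intro u w p
    induction p with
    | nil => exact Or.inl rfl
    | @cons a b c hab p ih =>
      rcases ih with h | h
      · rw [h]; exact Or.inr hab
      · -- b is adjacent to a and c
        left
        have h1 := hd b
        rw [← SimpleGraph.card_neighborFinset_eq_degree, card_le_one] at h1
        exact (h1 a (by simpa using hab.symm) c (by simpa using h)).symm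
  intro u w huw
  obtain ⟨p⟩ := hG.preconnected u w
  rcases key u w p with h | h
  · exact absurd h.symm huw
  · exact h

/-- two-regular graphs -/
theorem two_regular {V : Type} [Fintype V] [DecidableEq V] {G : SimpleGraph V}
    [DecidableRel G.Adj] (hG : G.Connected) (hd : ∀ v, G.degree v = 2) : HasUPS G := by
  obtain ⟨σ, hσ1, hσ2⟩ := Cyc.exists_orient G hd
  have hadj : ∀ u w, G.Adj u w ↔ w = σ u ∨ u = σ w := by
    intro u w
    constructor
    · exact Cyc.nbr_of_orient hd hσ1 hσ2
    · rintro (rfl | rfl)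
      · exact hσ1 u
      · exact (hσ1 w).symm
  let s : G ≃g G :=
    { toEquiv := σ
      map_rel_iff' := by
        intro u w
        rw [hadj, hadj]
        change (σ w = σ (σ u) ∨ σ u = σ (σ w)) ↔ _
        rw [σ.injective.eq_iff, σ.injective.eq_iff] }
  have hs : ∀ (k : ℤ) (v : V), (s ^ k) v = (σ ^ k) v := by
    have h1 : ∀ (k : ℕ) (v : V), (s ^ k) v = (σ ^ k) v := by
      intro k
      induction k with
      | zero => intro v; rfl
      | succ k ih =>
        intro v
        rw [pow_succ', pow_succ']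
        change s ((s ^ k) v) = σ ((σ ^ k) v)
        rw [ih]
        rfl
    intro k v
    cases k with
    | ofNat k => exact_mod_cast h1 k v
    | negSucc k =>
      rw [zpow_negSucc, zpow_negSucc]
      have h2 : (s ^ (k + 1)) ((s ^ (k + 1))⁻¹ v) = v := by
        change ((s ^ (k + 1)) * (s ^ (k + 1))⁻¹) v = v
        rw [mul_inv_cancel]
        rfl
      rw [h1] at h2
      rw [Equiv.Perm.eq_inv_iff_eq]
      exact h2
  have hsame : ∀ u v, ∃ k : ℤ, (σ ^ k) u = v := by
    intro u v
    have h1 : σ.SameCycle u v := by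
      rw [← Cyc.comp_iff hd hσ1 hσ2 u v, SimpleGraph.ConnectedComponent.eq]
      exact hG.preconnected u v
    exact h1
  refine hasUPS_of_sharp hG {t | ∃ k : ℤ, t = s ^ k} fun u v => ?_
  obtain ⟨k, hk⟩ := hsame u v
  refine ⟨s ^ k, ⟨⟨k, rfl⟩, by rw [hs]; exact hk⟩, ?_⟩
  rintro t ⟨⟨l, rfl⟩, hl⟩
  rw [hs] at hl
  apply RelIso.ext
  intro w
  rw [hs, hs]
  obtain ⟨m, rfl⟩ := hsame u w
  rw [← Equiv.Perm.mul_apply, ← Equiv.Perm.mul_apply, ← zpow_add, ← zpow_add, add_comm l,
    add_comm k, zpow_add, zpow_add, Equiv.Perm.mul_apply, Equiv.Perm.mul_apply, hl, hk]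

/-- the remaining case -/
def DegFour : Prop :=
  ∀ (V : Type) [Fintype V] [DecidableEq V] (G : SimpleGraph V) [DecidableRel G.Adj] (d : ℕ),
    4 ≤ d → G.Connected → VT G → (∀ v, G.degree v = d) → (∃ x y, 4 ≤ G.dist x y) →
    (∀ p a : ℕ, p.Prime → Fintype.card V ≠ p ^ a) → HasUPS G

/-- **Top theorem**: the frozen statement from the remaining case. -/
theorem top (H : DegFour) : ∀ (V : Type) [Finite V] (G : SimpleGraph V),
      G.Connected →
      (∀ x y : V, ∃ φ : G ≃g G, φ x = y) →
      ∃ P : ∀ x y : V, G.Walk x y,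
        (∀ x y : V, x ≠ y → (P x y).IsPath) ∧
        ∃ c : ℕ, ∀ v : V,
          {p : V × V | p.1 ≠ p.2 ∧ v ∈ (P p.1 p.2).support}.ncard = c := by
  classical
  intro V _ G hG hT
  have := Fintype.ofFinite V
  suffices h : HasUPS G from h
  by_cases hD : ∀ x y, G.dist x y ≤ 3
  · exact UPS2.diam_three hG hT hD
  push Not at hD
  by_cases hp : ∃ p a : ℕ, p.Prime ∧ Fintype.card V = p ^ a
  · obtain ⟨p, a, hp, ha⟩ := hp
    exact hasUPS_of_card_prime_pow hG hT hp (by rw [Nat.card_eq_fintype_card]; exact ha)
  push Not at hp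
  obtain ⟨v0⟩ := hG.nonempty
  have hd : ∀ v, G.degree v = G.degree v0 := fun v => Cyc.vt_degree hT v v0
  by_cases h1 : G.degree v0 ≤ 1
  · have h2 := small_complete hG fun v => (hd v).trans_le h1
    obtain ⟨x, y, hxy⟩ := hD
    exfalso
    have h3 : x ≠ y := by
      rintro rfl
      rw [SimpleGraph.dist_self] at hxy
      omega
    have h4 := SimpleGraph.dist_eq_one_iff_adj.2 (h2 x y h3)
    omega
  by_cases h2 : G.degree v0 = 2
  · exact two_regular hG fun v => (hd v).trans h2
  by_cases h3 : G.degree v0 = 3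
  · exact A3.cubic hG hT fun v => (hd v).trans h3
  exact H V G (G.degree v0) (by omega) hG hT hd
    (by
      obtain ⟨x, y, hxy⟩ := hD
      exact ⟨x, y, hxy⟩) fun p a hpp => hp p a hpp

end Pool.Agent.UPS.Top
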